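import Pool.Agent.helper37.NE.SpecC

/-!
# MP_baa4d7_al, THEOREM NE, row YR0: the relation for the trivial subgroup is `altSum = 0`
-/

set_option autoImplicit false

namespace Pool.Agent.NE

open Pool.Agent.helper58.DC Pool.Agent.DI Pool.Agent.GR Pool.Agent.OB Pool.Agent.DR Pool.Agent.FI Pool.Agent.FI3 Pool.Agent.FI4 Pool.Agent.FI4I Pool.Agent.LE Pool.Agent.L5 Pool.Agent.NAB Pool.Agent.ND

open Classical in
/-- counting -/
theorem YR0_count {α : Type} (S : Set α) (hS : S.Finite) (P : α → Prop) (c : ℤ) (f : α → ℤ)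
    (hf : ∀ a ∈ S, f a = c * if P a then 1 else 0) :
    ∑ᶠ a ∈ S, f a = c * (Nat.card {a : α // a ∈ S ∧ P a} : ℤ) := by
  rw [finsum_mem_eq_finite_toFinset_sum f hS]
  have h1 : ∑ a ∈ hS.toFinset, f a = ∑ a ∈ hS.toFinset, c * (if P a then (1 : ℤ) else 0) := by
    refine Finset.sum_congr rfl ?_
    intro a ha
    exact hf a ((Set.Finite.mem_toFinset hS).1 ha)
  rw [h1, ← Finset.mul_sum, Finset.sum_boole]
  have h2 : Nat.card {a : α // a ∈ S ∧ P a} = (hS.toFinset.filter P).card := by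
    refine Nat.subtype_card (hS.toFinset.filter P) ?_
    intro a
    rw [Finset.mem_filter, Set.Finite.mem_toFinset]
  rw [h2]

/-- an irreducible character which is a multiple of another one is equal to it -/
theorem YR0_mult (hB2 : Pool.Agent.DI.B2_stmt) {Γ : Type} [Group Γ] [Finite Γ] (K : Subgroup Γ) (φ θ : Γ → ℂ)
    (hφ : φ ∈ IrrOn K) (hθ : θ ∈ IrrOn K) (e : ℕ) (he : ∀ x ∈ K, φ x = e * θ x) : φ = θ := by
  classical
  obtain ⟨⟨n, hn, hn1, -⟩, -, -, hφ0, horφ⟩ := (hB2 Γ K).2 φ hφ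
  obtain ⟨-, -, -, hθ0, horθ⟩ := (hB2 Γ K).2 θ hθ
  have hall : ∀ x, φ x = e * θ x := by
    intro x
    by_cases hx : x ∈ K
    · exact he x hx
    · rw [hφ0 x hx, hθ0 x hx, mul_zero]
  by_contra hne
  have h1 := horφ θ hθ
  rw [if_neg hne] at h1
  have h2 := horθ θ hθ
  rw [if_pos rfl] at h2
  have h3 : ∑ᶠ g : Γ, φ g * θ g⁻¹ = (e : ℂ) * ∑ᶠ g : Γ, θ g * θ g⁻¹ := by
    rw [mul_finsum]
    refine finsum_congr ?_
    intro g
    rw [hall g, mul_assoc]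
  rw [h1, h2] at h3
  have hK : (Nat.card K : ℂ) ≠ 0 := by
    exact_mod_cast Nat.card_pos.ne'
  have he0 : (e : ℂ) = 0 := by
    rcases mul_eq_zero.1 h3.symm with h | h
    · exact h
    · exact absurd h hK
  have h4 := hall 1
  rw [he0, zero_mul, hn1] at h4
  have : n = 0 := by exact_mod_cast h4
  omega

open Classical in
/-- the contribution of one pair -/
theorem YR0_relT (hRST : Pool.Agent.DR.RST_stmt) (hB13 : Pool.Agent.DI.B13_stmt) (hB2 : Pool.Agent.DI.B2_stmt)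
    {G E A : Type} [Group G] [Group E] [Group A] [Finite G] [Finite E] (X : Extension G E A) (p : ℕ)
    (C : Finset (Subgroup G)) (hch : IsChain (· ≤ ·) (C : Set (Subgroup G))) (hne : C.Nonempty) (ψ : G → ℂ) (hψ : ψ ∈ IrrOn (nrm C)) (d : ℤ) :
    relT X p ⊥ C ψ d = (Nat.card (nrm C) : ℤ) * if Defect p (nrm C) ψ d then 1 else 0 := by
  obtain ⟨-, -, hstab⟩ := hRST G E A X C hch hne
  obtain ⟨-, hs2, hs3⟩ := hstab ψ hψ
  obtain ⟨-, hirr, -, -, hdef, -⟩ := hB13 G E p X.inc X.inc_injective (nrm C)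
  have hK : X.stab C ψ ⊓ (⊥ : Subgroup A).comap X.proj = (nrm C).map X.inc := by
    rw [MonoidHom.comap_bot]
    exact hs2
  have hcard : Nat.card ((nrm C).map X.inc : Subgroup E) = Nat.card (nrm C) :=
    Nat.card_congr ((nrm C).equivMapOfInjective X.inc X.inc_injective).toEquiv.symm
  unfold relT
  rw [hK, hcard, hs2]
  congr 1
  unfold inn
  have hθ : ext0 X.inc ψ ∈ IrrOn ((nrm C).map X.inc) := (hirr ψ).1 hψ
  by_cases hd : Defect p (nrm C) ψ d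
  · rw [if_pos hd]
    have h1 : Nat.card {φ : E → ℂ // φ ∈ IrrOn ((nrm C).map X.inc) ∧ (∃ e : ℕ, ∀ x ∈ (nrm C).map X.inc, φ x = e * ext0 X.inc ψ x) ∧
        (∀ s ∈ X.stab C ψ, funMap (MulAut.conj s) φ = φ) ∧ Defect p ((nrm C).map X.inc) φ d} = 1 := by
      rw [Nat.card_eq_one_iff_unique]
      refine ⟨⟨?_⟩, ⟨⟨ext0 X.inc ψ, hθ, ⟨1, ?_⟩, hs3, (hdef ψ d).1 hd⟩⟩⟩
      · rintro ⟨φ, h1, ⟨e, he⟩, -⟩ ⟨φ', h1', ⟨e', he'⟩, -⟩
        apply Subtype.ext
        change φ = φ'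
        rw [YR0_mult hB2 _ φ _ h1 hθ e he, YR0_mult hB2 _ φ' _ h1' hθ e' he']
      · intro x _
        rw [Nat.cast_one, one_mul]
    rw [h1, Nat.cast_one]
  · rw [if_neg hd]
    have h1 : IsEmpty {φ : E → ℂ // φ ∈ IrrOn ((nrm C).map X.inc) ∧ (∃ e : ℕ, ∀ x ∈ (nrm C).map X.inc, φ x = e * ext0 X.inc ψ x) ∧
        (∀ s ∈ X.stab C ψ, funMap (MulAut.conj s) φ = φ) ∧ Defect p ((nrm C).map X.inc) φ d} := by
      refine ⟨?_⟩
      rintro ⟨φ, h1, ⟨e, he⟩, -, h4⟩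
      apply hd
      rw [YR0_mult hB2 _ φ _ h1 hθ e he] at h4
      exact (hdef ψ d).2 h4
    rw [Nat.card_of_isEmpty, Nat.cast_zero]

theorem YR0 (hRPA : Pool.Agent.DR.RPA_stmt) (hRST : Pool.Agent.DR.RST_stmt) (hD1 : Pool.Agent.DI.D1_stmt)
    (hB13 : Pool.Agent.DI.B13_stmt) (hB2 : Pool.Agent.DI.B2_stmt) : YR0_stmt := by
  intro G E A _ _ _ _ _ X p _ M hM hp hop χ hχ hst d hsum
  have hker : X.inc.range = (⊥ : Subgroup A).comap X.proj := by
    rw [MonoidHom.comap_bot]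
    ext e
    rw [MonoidHom.mem_ker, MonoidHom.mem_range]
    exact (X.exact e).symm
  have hsum' : cSum p X.inc.range ⊥ ⊤
      (hf p M X.inc.range ((⊥ : Subgroup A).comap X.proj) (omega (ext0 X.inc χ)) d) = 0 := by
    rw [← hker]
    exact hsum
  have hrel := hRPA G E A X p M hM hp hop χ hχ hst ⊥ (inferInstance) d hsum'
  have h1 := hD1 G E A X p M χ hχ d ⊤
  have h2 : ∑ᶠ C ∈ {C : Finset (Subgroup G) | IsRadical p C},
      (-1) ^ (C.card + 1) * ((Nat.card (nrm C) : ℤ) * kC X p M χ d ⊤ C) = 0 := by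
    unfold Pool.Agent.DR.Rel at hrel
    rw [← hrel]
    refine finsum_mem_congr rfl fun C hC => ?_
    have hne : C.Nonempty := by
      obtain ⟨P₀, hP₀, _⟩ := hC.radical
      exact ⟨P₀, hP₀⟩
    congr 1
    classical
    rw [YR0_count {ψ : G → ℂ | ψ ∈ IrrOn (nrm C) ∧ Induces M ψ χ ∧ (X.stab C ψ).map X.proj ⊔ ⊥ = ⊤}
      ((hB2 G (nrm C)).1.subset fun ψ hψ => hψ.1) (fun ψ => Defect p (nrm C) ψ d) (Nat.card (nrm C) : ℤ)
      (fun ψ => relT X p ⊥ C ψ d) (fun ψ hψ => YR0_relT hRST hB13 hB2 X p C hC.chain hne ψ hψ.1 d)]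
    congr 2
    unfold kC
    refine Nat.card_congr (Equiv.subtypeEquivRight ?_)
    intro ψ
    rw [Set.mem_setOf_eq, sup_bot_eq]
    tauto
  rw [h2] at h1
  rcases mul_eq_zero.1 h1 with h | h
  · exfalso
    have : Nat.card G ≠ 0 := Nat.card_pos.ne'
    exact this (by exact_mod_cast h)
  · exact h

end Pool.Agent.NE
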